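import Mathlib

open Complex

namespace Pool.Agent.Results.MP_4b482e_nt.Counter

/-- Weierstrass zeta function (the term `l = 0` is `1 / z`) -/
noncomputable def zeta (L : PeriodPair) (z : ℂ) : ℂ :=
  ∑' l : L.lattice, (1 / (z - l) + 1 / l + z / l ^ 2)

/-- periods of `G = G_m × E` for `omega = dx/y`, `eta = x dx/y`, `xi = dZ/Z + c omega`; the lifts
of the two loops wind `m₁`, `m₂` times around `Z = 0` -/
def Omega (L : PeriodPair) (c : ℂ) (m₁ m₂ : ℤ) : Set ℂ :=
  {L.ω₁, L.ω₂, 2 * zeta L (L.ω₁ / 2), 2 * zeta L (L.ω₂ / 2),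
    c * L.ω₁ + m₁ * (2 * Real.pi * I), c * L.ω₂ + m₂ * (2 * Real.pi * I), 2 * Real.pi * I}

/-- the field generated by the algebraic numbers and the periods -/
noncomputable def K (L : PeriodPair) (c : ℂ) (m₁ m₂ : ℤ) : IntermediateField ℚ ℂ :=
  IntermediateField.adjoin ℚ ({z | IsAlgebraic ℚ z} ∪ Omega L c m₁ m₂)

/-- the field `F` for the point `R = (exp u, P)`, `P = (wp p, wp' p)`, whose generalized
logarithm is `(p, zeta p, u + c p)` up to sign -/
noncomputable def F (L : PeriodPair) (c : ℂ) (m₁ m₂ : ℤ) (u p : ℂ) :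
    IntermediateField (K L c m₁ m₂) ℂ :=
  IntermediateField.adjoin (K L c m₁ m₂)
    {exp u, L.weierstrassP p, L.derivWeierstrassP p, p, zeta L p, u + c * p}

/-- rational span of `2 pi i` and the periods of `xi` -/
noncomputable def V (L : PeriodPair) (c : ℂ) (m₁ m₂ : ℤ) : Submodule ℚ ℂ :=
  Submodule.span ℚ {2 * Real.pi * I, c * L.ω₁ + m₁ * (2 * Real.pi * I),
    c * L.ω₂ + m₂ * (2 * Real.pi * I)}

/-- dimension of the rational span of the integral of `xi` from `O` to `R` in `ℂ / V` -/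
noncomputable def t (L : PeriodPair) (c : ℂ) (m₁ m₂ : ℤ) (u p : ℂ) : ℕ :=
  Module.finrank ℚ (Submodule.span ℚ {(V L c m₁ m₂).mkQ (u + c * p)})

lemma trdeg_le (k : Type) [Field k] [Algebra k ℂ] (s : Finset ℂ) (S : Set ℂ)
    (h : ∀ z ∈ S, IsAlgebraic (Algebra.adjoin k (s : Set ℂ)) z) :
    Algebra.trdeg k (IntermediateField.adjoin k S) ≤ s.card := by
  set R := Algebra.adjoin k (s : Set ℂ) with hR
  let A := Subalgebra.algebraicClosure R ℂ
  have h1 : Algebra.trdeg k R ≤ s.card := by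
    rw [hR, Algebra.adjoin_eq_range]
    refine (trdeg_le_of_surjective _ (AlgHom.rangeRestrict_surjective _)).trans ?_
    simp
  have h2 : Algebra.IsAlgebraic R A := ⟨fun x =>
    (isAlgebraic_algebraMap_iff (A := ℂ) Subtype.val_injective).1 x.2⟩
  have h3 : Algebra.trdeg k A = Algebra.trdeg k R := by
    rw [← trdeg_add_eq k R (A := A), trdeg_eq_zero (R := R) (A := A), add_zero]
  let B : IntermediateField k ℂ := (A.restrictScalars k).toIntermediateField
    fun x hx => IsAlgebraic.inv hx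
  have h4 : IntermediateField.adjoin k S ≤ B := IntermediateField.adjoin_le_iff.2 h
  have h5 := trdeg_le_of_injective (IntermediateField.inclusion h4)
    (IntermediateField.inclusion_injective h4)
  exact h5.trans (h3.le.trans h1)

noncomputable def sq (w : ℂ) (hw : w ≠ 0) : PeriodPair where
  ω₁ := w
  ω₂ := w * I
  indep := LinearIndependent.pair_iff.2 fun a b h => by
    have h1 : (a : ℂ) + b * I = 0 := mul_left_cancel₀ hw (by
      simp only [real_smul] at h; linear_combination h)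
    exact ⟨by simpa using congrArg re h1, by simpa using congrArg im h1⟩

lemma G_sq (w : ℂ) (hw : w ≠ 0) (n : ℕ) :
    (sq w hw).G n = (w ^ n)⁻¹ * ∑' x : ℤ × ℤ, (((x.1 : ℂ) + x.2 * I) ^ n)⁻¹ := by
  rw [PeriodPair.G, ← (sq w hw).latticeEquivProd.symm.toEquiv.tsum_eq, ← tsum_mul_left]
  refine tsum_congr fun x => ?_
  rw [← mul_inv, ← mul_pow]
  congr 2
  refine ((sq w hw).latticeEquiv_symm_apply x).trans ?_
  simp only [sq]
  ring

lemma exists_lattice : ∃ L : PeriodPair, IsAlgebraic ℚ L.g₂ ∧ IsAlgebraic ℚ L.g₃ := by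
  have h6 : ∑' x : ℤ × ℤ, (((x.1 : ℂ) + x.2 * I) ^ 6)⁻¹ = 0 := by
    let e : ℤ × ℤ ≃ ℤ × ℤ := (Equiv.prodComm _ _).trans ((Equiv.neg ℤ).prodCongr (Equiv.refl ℤ))
    have : ∑' x : ℤ × ℤ, (((x.1 : ℂ) + x.2 * I) ^ 6)⁻¹ =
        -∑' x : ℤ × ℤ, (((x.1 : ℂ) + x.2 * I) ^ 6)⁻¹ := by
      nth_rewrite 1 [← e.tsum_eq]
      rw [← tsum_neg]
      refine tsum_congr fun x => ?_
      rw [neg_inv]
      congr 1
      have : (((e x).1 : ℂ) + (e x).2 * I) = I * (x.1 + x.2 * I) := by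
        simp [e]; linear_combination (-x.2 : ℂ) * I_mul_I
      rw [this, mul_pow, show I ^ 6 = -1 by rw [show 6 = 2 * 3 from rfl, pow_mul, I_sq]; norm_num]
      ring
    linear_combination this / 2
  set g := ∑' x : ℤ × ℤ, (((x.1 : ℂ) + x.2 * I) ^ 4)⁻¹ with hg
  by_cases h : g = 0
  · refine ⟨sq 1 one_ne_zero, ?_, ?_⟩
    · rw [PeriodPair.g₂, G_sq, ← hg, h]; simpa using isAlgebraic_zero
    · rw [PeriodPair.g₃, G_sq, h6]; simpa using isAlgebraic_zero
  · obtain ⟨w, hw⟩ := IsAlgClosed.exists_pow_nat_eq g (show 0 < 4 by norm_num)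
    refine ⟨sq w (by rintro rfl; exact h (by simpa using hw.symm)), ?_, ?_⟩
    · rw [PeriodPair.g₂, G_sq, ← hg, hw, inv_mul_cancel₀ h]
      simpa using isAlgebraic_natCast (R := ℚ) (A := ℂ) 60
    · rw [PeriodPair.g₃, G_sq, h6]; simpa using isAlgebraic_zero

lemma exists_theta (a b d x : ℂ) (hx : x ≠ 0) :
    ∃ θ : ℂ, IsAlgebraic ℚ θ ∧ θ * x ∉ Submodule.span ℚ {a, b, d} := by
  classical
  by_contra! h
  let A := algebraicClosure ℚ ℂ
  let f : A →ₗ[ℚ] Submodule.span ℚ ({a, b, d} : Set ℂ) :=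
    ((LinearMap.mulRight ℚ x).comp A.val.toLinearMap).codRestrict _
      fun z => h z (mem_algebraicClosure_iff.1 z.2)
  have hf : Function.Injective f := fun y z e =>
    Subtype.ext (mul_right_cancel₀ hx (congrArg Subtype.val e))
  have : Module.Finite ℚ (Submodule.span ℚ ({a, b, d} : Set ℂ)) :=
    Module.Finite.span_of_finite _ (Set.toFinite _)
  have : Module.Finite ℚ A := Module.Finite.of_injective f hf
  have h1 := LinearMap.finrank_le_finrank_of_injective hf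
  have h2 := finrank_span_finset_le_card (R := ℚ) ({a, b, d} : Finset ℂ)
  have h3 : ({a, b, d} : Finset ℂ).card ≤ 3 := Finset.card_le_three
  have h7 := isPrimitiveRoot_exp 7 (by norm_num)
  have h4 := minpoly.natDegree_le (A := ℚ) (B := A)
    ⟨_, mem_algebraicClosure_iff.2
      ((h7.isIntegral (by norm_num)).isAlgebraic.extendScalars (RingHom.injective_int _))⟩
  erw [IntermediateField.minpoly_eq, ← Polynomial.cyclotomic_eq_minpoly_rat h7 (by norm_num),
    Polynomial.natDegree_cyclotomic, Nat.totient_prime (by norm_num)] at h4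
  rw [Set.finrank, show (({a, b, d} : Finset ℂ) : Set ℂ) = {a, b, d} by simp] at h2
  omega

theorem result : (∃ L : PeriodPair, IsAlgebraic ℚ L.g₂ ∧ IsAlgebraic ℚ L.g₃) ∧
    ∀ L : PeriodPair, IsAlgebraic ℚ L.g₂ → IsAlgebraic ℚ L.g₃ →
    ∀ c : ℂ, IsAlgebraic ℚ c → c ≠ 0 → ∀ m₁ m₂ : ℤ, ∃ u p : ℂ,
      (∀ N : ℕ, 0 < N → N * p ∉ L.lattice) ∧
      Algebra.trdeg (K L c m₁ m₂) (F L c m₁ m₂ u p) < (2 * 1 + t L c m₁ m₂ u p : ℕ) := by
  classical
  refine ⟨exists_lattice, fun L h2 h3 c hc hc0 m₁ m₂ => ?_⟩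
  have hw : L.ω₁ ≠ 0 := by simpa using L.indep.ne_zero 0
  obtain ⟨θ, hθ, hV⟩ := exists_theta (2 * Real.pi * I) (c * L.ω₁ + m₁ * (2 * Real.pi * I))
    (c * L.ω₂ + m₂ * (2 * Real.pi * I)) _ (mul_ne_zero hc0 hw)
  change _ ∉ V L c m₁ m₂ at hV
  have hN : ∀ N : ℕ, 0 < N → N * (θ * L.ω₁) ∉ L.lattice := by
    intro N hN h
    obtain ⟨a, b, e⟩ := PeriodPair.mem_lattice.1 h
    have hN' : (N : ℂ) ≠ 0 := by exact_mod_cast hN.ne'
    have : θ * (c * L.ω₁) = (-(a * m₁ + b * m₂) / N : ℚ) • (2 * Real.pi * I) +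
        ((a / N : ℚ) • (c * L.ω₁ + m₁ * (2 * Real.pi * I)) +
        (b / N : ℚ) • (c * L.ω₂ + m₂ * (2 * Real.pi * I))) := by
      simp only [Rat.smul_def]
      push_cast
      field_simp
      linear_combination -c * e
    refine hV (this ▸ add_mem ?_ (add_mem ?_ ?_)) <;>
      exact Submodule.smul_mem _ _ (Submodule.subset_span (by simp))
  refine ⟨0, θ * L.ω₁, hN, ?_⟩
  have ht : t L c m₁ m₂ 0 (θ * L.ω₁) = 1 := finrank_span_singleton (by
    rw [Submodule.mkQ_apply, Ne, Submodule.Quotient.mk_eq_zero, zero_add, mul_left_comm]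
    exact hV)
  rw [ht]
  set p := θ * L.ω₁ with hp
  refine (trdeg_le _ {L.weierstrassP p, zeta L p} _ ?_).trans_lt
    (by exact_mod_cast Nat.lt_succ_of_le Finset.card_le_two)
  set R := Algebra.adjoin (K L c m₁ m₂) (({L.weierstrassP p, zeta L p} : Finset ℂ) : Set ℂ)
  have m : ∀ z ∈ R, IsAlgebraic R z := fun z hz => isAlgebraic_algebraMap (⟨z, hz⟩ : R)
  have k : ∀ z ∈ K L c m₁ m₂, z ∈ R := fun z hz => R.algebraMap_mem ⟨z, hz⟩
  have ka : ∀ z, IsAlgebraic ℚ z → z ∈ R := fun z hz =>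
    k z (IntermediateField.subset_adjoin _ _ (Or.inl hz))
  have kp : p ∈ R := mul_mem (ka _ hθ)
    (k _ (IntermediateField.subset_adjoin _ _ (Or.inr (by simp [Omega]))))
  have kw : L.weierstrassP p ∈ R := Algebra.subset_adjoin (by simp)
  rintro z (rfl | rfl | rfl | rfl | rfl | rfl)
  · simpa using isAlgebraic_one
  · exact m _ kw
  · refine .of_pow two_pos (m _ ?_)
    rw [L.derivWeierstrassP_sq p (by simpa using hN 1 one_pos)]
    exact sub_mem (sub_mem (mul_mem (ofNat_mem _ 4) (pow_mem kw 3)) (mul_mem (ka _ h2) kw))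
      (ka _ h3)
  · exact m _ kp
  · exact m _ (Algebra.subset_adjoin (by simp))
  · exact m _ (add_mem (zero_mem _) (mul_mem (ka _ hc) kp))

end Pool.Agent.Results.MP_4b482e_nt.Counter
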